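import Pool.Agent.Helper46.T5.Stmts

/-!
# PSC: continuity, positivity and bound of the gauge fixing function
-/

set_option autoImplicit false

open Finset MeasureTheory Filter Topology

namespace Pool.Agent.Helper46.T5

open Pool.Agent.Helper15.T4

namespace PSC19

lemma nsq_nonneg {ι : Type} [Fintype ι] (x : ι → ℝ) : 0 ≤ nsq x :=
  Finset.sum_nonneg fun _ _ => sq_nonneg _

lemma cont_nsq {ι : Type} [Fintype ι] : Continuous (fun x : ι → ℝ => nsq x) := by
  unfold nsq
  fun_prop

lemma cont_Cay : Continuous Cay := by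
  have h1 : Continuous (fun v : Fin 3 → ℝ => nsq v) := cont_nsq
  have h0 : ∀ v : Fin 3 → ℝ, (1 + nsq v) ≠ 0 := fun v => by
    have := nsq_nonneg v
    positivity
  have h2 : Continuous (fun v : Fin 3 → ℝ => (1 + nsq v)⁻¹) :=
    (continuous_const.add h1).inv₀ h0
  have h3 : Continuous (fun v : Fin 3 → ℝ => Matrix.vecMulVec v v) := by
    refine continuous_matrix fun i j => ?_
    simp only [Matrix.vecMulVec_apply]
    fun_prop
  have h4 : Continuous (fun v : Fin 3 → ℝ => skew v) := by
    refine continuous_matrix fun i j => ?_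
    fin_cases i <;> fin_cases j <;> simp [skew] <;> fun_prop
  unfold Cay
  exact h2.smul ((((continuous_const.sub h1).smul continuous_const).add (h3.const_smul (2 : ℝ))).add
    (h4.const_smul (2 : ℝ)))

lemma cont_rho : Continuous rho := by
  have h1 : Continuous (fun v : Fin 3 → ℝ => nsq v) := cont_nsq
  unfold rho
  refine Continuous.inv₀ (by fun_prop) fun v => ?_
  have := nsq_nonneg v
  have := Real.pi_pos
  positivity

lemma rho_pos (v : Fin 3 → ℝ) : 0 < rho v := by
  unfold rho
  have := nsq_nonneg v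
  have := Real.pi_pos
  positivity

lemma cont_pt {J : Type} {K : ℕ} (φ : Fin K × Fin 2 ≃ J) : Continuous (fun O : Fin K → M3 => pt φ O) := by
  unfold pt
  refine continuous_pi fun a => continuous_finsetProd _ fun p _ => ?_
  exact ((continuous_apply_apply _ _).comp (continuous_apply p)).div_const _

variable (K N : ℕ)

/-- the integrand -/
noncomputable def Fx (s : ℤˣ) (π : Equiv.Perm (Fin K × Fin 2)) (x : (Fin K × Fin 2 → Fin 3) → ℝ)
    (v : Fin K → Fin 3 → ℝ) : ℝ :=
  Real.exp (-(N : ℝ) * nsq (fun a => x a - ((s : ℤ) : ℝ) * pt π (fun p => Cay (v p)) a)) *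
    ∏ p, rho (v p)

lemma cont_Fx (s : ℤˣ) (π : Equiv.Perm (Fin K × Fin 2)) :
    Continuous (fun z : ((Fin K × Fin 2 → Fin 3) → ℝ) × (Fin K → Fin 3 → ℝ) =>
      Fx K N s π z.1 z.2) := by
  unfold Fx
  have h1 : Continuous (fun v : Fin K → Fin 3 → ℝ => pt π (fun p => Cay (v p))) :=
    (cont_pt π).comp (continuous_pi fun p => cont_Cay.comp (continuous_apply p))
  have h2 : Continuous (fun z : ((Fin K × Fin 2 → Fin 3) → ℝ) × (Fin K → Fin 3 → ℝ) =>
      (fun a => z.1 a - ((s : ℤ) : ℝ) * pt π (fun p => Cay (z.2 p)) a)) := by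
    refine continuous_pi fun a => ?_
    refine ((continuous_apply a).comp continuous_fst).sub (continuous_const.mul ?_)
    exact (continuous_apply a).comp (h1.comp continuous_snd)
  have h3 := cont_nsq.comp h2
  refine (Real.continuous_exp.comp (continuous_const.mul h3)).mul ?_
  exact continuous_finsetProd _ fun p _ => cont_rho.comp ((continuous_apply p).comp continuous_snd)

lemma cont_Fx_right (s : ℤˣ) (π : Equiv.Perm (Fin K × Fin 2)) (x : (Fin K × Fin 2 → Fin 3) → ℝ) :
    Continuous (fun v : Fin K → Fin 3 → ℝ => Fx K N s π x v) :=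
  (cont_Fx K N s π).comp (g := fun z : ((Fin K × Fin 2 → Fin 3) → ℝ) × (Fin K → Fin 3 → ℝ) =>
      Fx K N s π z.1 z.2) (f := fun v => (x, v)) (continuous_const.prodMk continuous_id)

lemma cont_Fx_left (s : ℤˣ) (π : Equiv.Perm (Fin K × Fin 2)) (v : Fin K → Fin 3 → ℝ) :
    Continuous (fun x : (Fin K × Fin 2 → Fin 3) → ℝ => Fx K N s π x v) :=
  (cont_Fx K N s π).comp (g := fun z : ((Fin K × Fin 2 → Fin 3) → ℝ) × (Fin K → Fin 3 → ℝ) =>
      Fx K N s π z.1 z.2) (f := fun x => (x, v)) (continuous_id.prodMk continuous_const)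

lemma Fx_pos (s : ℤˣ) (π : Equiv.Perm (Fin K × Fin 2)) (x : (Fin K × Fin 2 → Fin 3) → ℝ)
    (v : Fin K → Fin 3 → ℝ) : 0 < Fx K N s π x v :=
  mul_pos (Real.exp_pos _) (Finset.prod_pos fun _ _ => rho_pos _)

lemma Fx_le (s : ℤˣ) (π : Equiv.Perm (Fin K × Fin 2)) (x : (Fin K × Fin 2 → Fin 3) → ℝ)
    (v : Fin K → Fin 3 → ℝ) : Fx K N s π x v ≤ ∏ p, rho (v p) := by
  have h1 : 0 < ∏ p, rho (v p) := Finset.prod_pos fun _ _ => rho_pos _
  have h2 : Real.exp (-(N : ℝ) * nsq (fun a => x a - ((s : ℤ) : ℝ) * pt π (fun p => Cay (v p)) a)) ≤ 1 := by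
    rw [Real.exp_le_one_iff]
    have := nsq_nonneg (fun a => x a - ((s : ℤ) : ℝ) * pt π (fun p => Cay (v p)) a)
    have hN : (0 : ℝ) ≤ N := Nat.cast_nonneg N
    nlinarith
  unfold Fx
  nlinarith

lemma Psi_eq (x : (Fin K × Fin 2 → Fin 3) → ℝ) :
    Psi K N x = ∑ s : ℤˣ, ∑ π : Equiv.Perm (Fin K × Fin 2), ∫ v, Fx K N s π x v := rfl

end PSC19

open PSC19

theorem st_PSC (hAV1 : ST_AV1) : ST_PSC := by
  intro K N
  obtain ⟨hmass, hint⟩ := hAV1 K
  have hmass' : ∫ v : Fin K → Fin 3 → ℝ, ∏ p, rho (v p) = 1 := by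
    have := hmass
    unfold AV at this
    simpa using this
  have hFint : ∀ s π x, Integrable (fun v => Fx K N s π x v) := by
    intro s π x
    refine hint.mono' ?_ (Eventually.of_forall fun v => ?_)
    · exact (cont_Fx_right K N s π x).aestronglyMeasurable
    · rw [Real.norm_eq_abs, abs_of_pos (Fx_pos K N s π x v)]
      exact Fx_le K N s π x v
  refine ⟨?_, fun x => ?_, fun x => ?_⟩
  · have : Psi K N = fun x => ∑ s : ℤˣ, ∑ π : Equiv.Perm (Fin K × Fin 2), ∫ v, Fx K N s π x v := by
      funext x; exact Psi_eq K N x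
    rw [this]
    refine continuous_finsetSum _ fun s _ => continuous_finsetSum _ fun π _ => ?_
    refine continuous_of_dominated (bound := fun v => ∏ p, rho (v p)) (fun x => (hFint s π x).1)
      (fun x => Eventually.of_forall fun v => ?_) hint (Eventually.of_forall fun v => ?_)
    · rw [Real.norm_eq_abs, abs_of_pos (Fx_pos K N s π x v)]
      exact Fx_le K N s π x v
    · exact cont_Fx_left K N s π v
  · rw [Psi_eq]
    refine Finset.sum_pos (fun s _ => Finset.sum_pos (fun π _ => ?_) Finset.univ_nonempty)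
      Finset.univ_nonempty
    rw [integral_pos_iff_support_of_nonneg (fun v => (Fx_pos K N s π x v).le) (hFint s π x)]
    have : Function.support (fun v => Fx K N s π x v) = Set.univ :=
      Set.eq_univ_of_forall fun v => (Fx_pos K N s π x v).ne'
    rw [this]
    exact isOpen_univ.measure_pos volume Set.univ_nonempty
  · rw [Psi_eq]
    have h1 : ∀ s π, ∫ v, Fx K N s π x v ≤ 1 := by
      intro s π
      rw [← hmass']
      exact integral_mono (hFint s π x) hint (fun v => Fx_le K N s π x v)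
    calc ∑ s : ℤˣ, ∑ π : Equiv.Perm (Fin K × Fin 2), ∫ v, Fx K N s π x v
        ≤ ∑ s : ℤˣ, ∑ π : Equiv.Perm (Fin K × Fin 2), (1 : ℝ) :=
          Finset.sum_le_sum fun s _ => Finset.sum_le_sum fun π _ => h1 s π
      _ = 2 * ((2 * K).factorial : ℝ) := by
          simp only [Finset.sum_const, Finset.card_univ, nsmul_eq_mul, mul_one]
          have h2 : Fintype.card ℤˣ = 2 := by decide
          rw [Fintype.card_perm, Fintype.card_prod, Fintype.card_fin, Fintype.card_fin,
            h2, mul_comm K 2]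
          push_cast
          ring

end Pool.Agent.Helper46.T5
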